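import Pool.Agent.Helper7K9.TC.Main

/-!
# The Tate conjecture for the powers of a variety: the index is finite

Let `W` be a Weil cohomology theory on a class of smooth projective varieties over a field `k` (in the
intended use `k` is finitely generated and `W` is `X ↦ H(X ⊗ k̄, ℚ_ℓ)`; then the cycles are those
defined over `k`), with an action of a group `Γ`, the Galois group: `Γ` acts by ring automorphisms
which preserve the degrees and commute with the pull-backs, the action on the Tate twists, which are
suppressed, is given by a character `χ`, so that the classes of algebraic cycles of codimension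
`j` are multiplied with `χ ^ j`, and the orientations of the varieties of dimension `d` are
multiplied with `χ ^ d` (`GalAct`). A class `c` of degree `2 j` is a Tate class if for every `g` in
`Γ` some power `g ^ m`, `m > 0`, maps `c` to `χ (g) ^ (m j) c` (`IsTate`). (For `ℓ`-adic cohomology
these are the classes of `H^(2j)(X ⊗ k̄, ℚ_ℓ(j))` which are fixed by an open subgroup of the Galois
group.)

Let `X` be a variety of dimension `d` such that

* (`h4`) the Tate classes of middle degree on `X⁴`, that is in `H^(4d)`, are linear combinations of
  classes of algebraic cycles;
* (`hT`) the pairing of the Tate classes is nondegenerate on all powers of `X` (it is nondegenerate if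
  `Γ` acts semisimply on the cohomology of `X`, for instance by the theorems of Faltings and Zarhin if
  `X` is an abelian variety or a product of curves over a finitely generated field);
* (`hz`) there are no central classes: a Tate class `z` of middle degree on `X × X` which acts on the
  cohomology of `X` as a derivation of the ring, is skew for the Poincaré duality and commutes with all
  Tate classes of middle degree on `X × X` vanishes (for instance if the Lie algebra of the image of the
  Galois group is, up to homotheties, semisimple).

We prove: the quotients of the dimension of the space of the Tate classes on `X^n` by the rank of the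
group of the algebraic cycles on `X^n` modulo numerical equivalence converge to an element `N ≥ 1` of
`ℕ ∪ {∞}`, and `N` is **finite if and only if homological and numerical equivalence agree on all powers
of `X`**. We have `N = 1` if and only if the Tate conjecture holds for all powers of `X`; and if `N` is
finite then all Tate classes on all powers of `X` are obtained from algebraic classes and from at most
`N - 1` Tate classes by algebraic correspondences.

(For abelian varieties over fields of characteristic zero homological and numerical equivalence agree
by a theorem of Lieberman, and then the Tate classes of middle degree on `X⁴` decide that the algebraic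
classes make up the positive proportion `1 / N` of the Tate classes on all powers.)

The proof: the Lie algebra `𝔱` of the skew operators which kill all Tate classes on all powers of `X` is
cut out of `H(X × X)` by a projector which is given by a Tate class of middle degree on `X⁴`. It is
algebraic by assumption, and since there are no central classes it follows that the skew operators
which kill all algebraic classes are in `𝔱`; here we use that, conversely, the classes which are killed
by `𝔱` are Tate classes: the group `G` of the automorphisms over the algebraic closure `Ω` of the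
coefficient field which respect the degrees and the trace form and fix all Tate classes contains a power
of the (normalised) operator of every element of `Γ`, since the ideal of its equations is finitely
generated; and `G` acts on the classes killed by its Lie algebra through finitely many maps, since the
logarithmic derivatives of its points over extension fields of `Ω` are in the Lie algebra. By the same
argument the group `G_a` of the operators which fix the algebraic classes acts on the Tate
classes on all powers of `X` through finitely many maps. Finally we prove the Tannaka duality for `G_a`: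
if homological and numerical equivalence agree, there is a system of projectors to the algebraic
classes which are compatible with all algebraic correspondences; the matrices of these projectors define
a linear functional on the polynomials in the matrix coefficients which vanishes on the ideal of the
equations of `G_a`. This ideal is radical by Cartier's theorem on algebraic groups in characteristic
zero, and so all classes over `Ω` fixed by `G_a` are linear combinations of algebraic classes. The
bound for the dimensions follows: the dimension of the space of Tate classes on `X^n` is bounded by a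
multiple of the rank of the algebraic classes on `X^(n + m)` for some `m`, hence the index, which exists
in `ℕ ∪ {∞}` by the index law, is finite.
-/

open CategoryTheory AlgebraicGeometry

universe u w

namespace Pool.Agent.Results.MP_4776b1_ag.FiniteIndex

open Pool.Agent.H914 Pool.Agent.H914.VarClass Pool.Agent.H914.VarClass.Obj
  Pool.Agent.H914.WeilCohomology
open Pool.Agent.Y133.Half (pw HasIndex cycRank GeneratedOver dimBy)
open Pool.Agent.Helper7K9 (TC.GalAct TC.IsTate TC.finite_index)

section Alg

variable {Γ : Type w} [Group Γ] {K A : Type} [Field K] [Ring A] [Algebra K A]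

/-- The group `Γ` acts on the algebra `A` by `K`-linear automorphisms of rings which preserve the
subspaces `gr i`. -/
structure IsAction (gr : ℕ → Submodule K A) (act : Γ → A → A) : Prop where
  one_act : ∀ a, act 1 a = a
  mul_act : ∀ g h a, act (g * h) a = act g (act h a)
  one : ∀ g, act g 1 = 1
  mul : ∀ g a b, act g (a * b) = act g a * act g b
  add : ∀ g a b, act g (a + b) = act g a + act g b
  smul : ∀ g (r : K) a, act g (r • a) = r • act g a
  gr : ∀ g {i a}, a ∈ gr i → act g a ∈ gr i

/-- The function `χ` is a character. -/
structure IsChar (χ : Γ → K) : Prop where
  one : χ 1 = 1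
  mul : ∀ g h, χ (g * h) = χ g * χ h

/-- The group acts on the linear form `tr` by the `d`-th power of `χ`. -/
def ActsOnForm (χ : Γ → K) (act : Γ → A → A) (tr : A →ₗ[K] K) (d : ℕ) : Prop :=
  ∀ g a, tr (act g a) = χ g ^ d * tr a

/-- The group acts on the element `c` by the `j`-th power of `χ`. -/
def ActsBy (χ : Γ → K) (act : Γ → A → A) (j : ℕ) (c : A) : Prop := ∀ g, act g c = χ g ^ j • c

/-- A power of each element of the group acts on `c` by the `j`-th power of `χ`. -/
def PowActsBy (χ : Γ → K) (act : Γ → A → A) (j : ℕ) (c : A) : Prop :=
  ∀ g, ∃ m, 0 < m ∧ act (g ^ m) c = χ (g ^ m) ^ j • c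

/-- The operator `y` is a derivation and it is skew for the form `tr (a b)`. -/
def IsSkewDer (tr : A →ₗ[K] K) (y : A →ₗ[K] A) : Prop :=
  (∀ a b, tr (y a * b + a * y b) = 0) ∧ ∀ a b, y (a * b) = y a * b + a * y b

/-- The operators `x` and `y` commute. -/
def Comm (x y : A →ₗ[K] A) : Prop := ∀ a, x (y a) = y (x a)

end Alg

variable {k : Type u} [Field k] {𝒱 : VarClass k} {ops : CycleOps 𝒱}

/-- An action of the group `Γ` on the Weil cohomology theory `W` by ring automorphisms which
preserve the degrees, commute with pull-backs and act on the classes of algebraic cycles of
codimension `j` and on the orientations by the powers of a character `χ` (the action on the Tate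
twists, which are suppressed). In the intended use `Γ` is the Galois group of the ground field and
`W` is étale cohomology. -/
structure GalAct (W : WeilCohomology.{u, 0} ops) (Γ : Type w) [Group Γ] where
  /-- the action on the Tate twists -/
  χ : Γ → W.K
  /-- the action on the cohomology -/
  act : ∀ X : 𝒱.Obj, Γ → W.H X → W.H X
  isChar : IsChar χ
  isAction : ∀ X, IsAction (W.gr X) (act X)
  map : ∀ {X Y : 𝒱.Obj} (f : X ⟶ Y) (g : Γ) (b : W.H Y),
    act X g (W.map f b) = W.map f (act Y g b)
  tr : ∀ X, ActsOnForm χ (act X) (W.tr X) X.dim
  cyc : ∀ {X : 𝒱.Obj} {j : ℕ} {z : X.Cycles}, X.IsCyc j z → ActsBy χ (act X) j (W.cl X z)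

variable {W : WeilCohomology.{u, 0} ops} {Γ : Type w} [Group Γ]

/-- The Tate classes of degree `2 j`: for every element `g` of the group some power of `g` fixes the
class, up to the action on the Tate twist. (These are the Tate classes over finite extensions of the
ground field.) -/
def IsTate (G : GalAct W Γ) (X : 𝒱.Obj) (j : ℕ) (c : W.H X) : Prop :=
  c ∈ W.gr X (2 * j) ∧ PowActsBy G.χ (G.act X) j c

/-- The class `c` of degree `2 j` is a linear combination of classes of algebraic cycles, with
coefficients in the coefficient field of the cohomology. -/
def IsAlg (W : WeilCohomology.{u, 0} ops) (X : 𝒱.Obj) (j : ℕ) (c : W.H X) : Prop :=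
  c ∈ spanCycles W X j

/-- The pairing of the Tate classes on `X` is nondegenerate. -/
def TateNondeg (G : GalAct W Γ) (X : 𝒱.Obj) : Prop :=
  ∀ j c, IsTate G X j c → (∀ c', IsTate G X (X.dim - j) c' → W.tr X (c * c') = 0) → c = 0

/-- The Tate class `z` of middle degree on `X × X` acts on the cohomology of `X`, by
`a ↦ pr₂_* (z · pr₁^* a)`, as a derivation of the ring which is skew for the Poincaré duality and which
commutes with the action of all Tate classes of middle degree on `X × X`. -/
def IsCentral (G : GalAct W Γ) (X : 𝒱.Obj) (z : W.H (X.prod X)) : Prop :=
  IsTate G (X.prod X) X.dim z ∧ IsSkewDer (W.tr X) (W.corr z) ∧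
    ∀ z', IsTate G (X.prod X) X.dim z' → Comm (W.corr z) (W.corr z')

/-- The dimension of the space of all Tate classes on `X`, in all degrees. -/
noncomputable def tateDim (G : GalAct W Γ) (X : 𝒱.Obj) : ℕ :=
  dimBy W (IsTate G) X

/-- The hypotheses on `X`: the Tate classes of middle degree on `X⁴` are algebraic, the pairing of the
Tate classes on all powers of `X` is nondegenerate, and there are no central classes. Here `pw X n` is
the product of `n + 1` copies of `X`. -/
structure Hyp (G : GalAct W Γ) (X : 𝒱.Obj) : Prop where
  alg : ∀ c, IsTate G (pw X 3) (2 * X.dim) c → IsAlg W (pw X 3) (2 * X.dim) c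
  nondeg : ∀ n, TateNondeg G (pw X n)
  central : ∀ z : W.H (X.prod X), IsCentral G X z → z = 0

/-- The properties of the index `N`. -/
structure IsIndex (G : GalAct W Γ) (X : 𝒱.Obj) (N : ℕ∞) : Prop where
  one_le : 1 ≤ N
  lim : HasIndex (fun n => tateDim G (pw X n)) (fun n => cycRank ops (pw X n)) N
  fin_iff : N ≠ ⊤ ↔ ∀ n, HomEqNum W (pw X n)
  one_iff : N = 1 ↔ ∀ n j c, IsTate G (pw X n) j c → IsAlg W (pw X n) j c
  gen : N ≠ ⊤ → GeneratedOver W (IsAlg W) (IsTate G) X N

section Conv

variable (G : GalAct W Γ)

/-- The character with values in the group of units. -/
noncomputable def chi : Γ →* W.Kˣ where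
  toFun g := ⟨G.χ g, G.χ g⁻¹, by rw [← G.isChar.mul, mul_inv_cancel, G.isChar.one],
    by rw [← G.isChar.mul, inv_mul_cancel, G.isChar.one]⟩
  map_one' := Units.ext G.isChar.one
  map_mul' g h := Units.ext (G.isChar.mul g h)

/-- The action as a linear representation. -/
noncomputable def rep (X : 𝒱.Obj) : Γ →* Module.End W.K (W.H X) where
  toFun g :=
    { toFun := G.act X g
      map_add' := (G.isAction X).add g
      map_smul' := (G.isAction X).smul g }
  map_one' := LinearMap.ext (G.isAction X).one_act
  map_mul' g h := LinearMap.ext ((G.isAction X).mul_act g h)

/-- The action. -/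
noncomputable def conv : TC.GalAct W Γ where
  χ := chi G
  act := rep G
  one X g := (G.isAction X).one g
  mul X g := (G.isAction X).mul g
  gr {X} g _ _ ha := (G.isAction X).gr g ha
  map := G.map
  tr X g a := G.tr X g a
  cyc hz g := G.cyc hz g

lemma chi_pow (g : Γ) (m : ℕ) : G.χ (g ^ m) = G.χ g ^ m := by
  have h := congrArg (fun x : W.Kˣ => (x : W.K)) (map_pow (chi G) g m)
  rw [Units.val_pow_eq_pow_val] at h
  exact h

lemma isTate_iff {X : 𝒱.Obj} {j : ℕ} {c : W.H X} : TC.IsTate (conv G) X j c ↔ IsTate G X j c := by
  have h : ∀ (g : Γ) (m : ℕ), G.χ (g ^ m) ^ j = G.χ g ^ (m * j) := by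
    intro g m
    rw [chi_pow, ← pow_mul]
  constructor
  · rintro ⟨h1, h2⟩
    refine ⟨h1, fun g => ?_⟩
    obtain ⟨m, hm, h3⟩ := h2 g
    refine ⟨m, hm, ?_⟩
    rw [h]
    exact h3
  · rintro ⟨h1, h2⟩
    refine ⟨h1, fun g => ?_⟩
    obtain ⟨m, hm, h3⟩ := h2 g
    refine ⟨m, hm, ?_⟩
    rw [h] at h3
    exact h3

lemma isTate_eq : (fun (Z : 𝒱.Obj) j c => TC.IsTate (conv G) Z j c) = IsTate G := by
  funext Z j c
  exact propext (isTate_iff G)

end Conv

/-- The finiteness of the index. -/
theorem result (G : GalAct W Γ) (X : 𝒱.Obj) [Nontrivial (W.H X)] (h : Hyp G X) :
    ∃ N : ℕ∞, IsIndex G X N := by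
  obtain ⟨N, h1, h2, h3, h4, h5⟩ := TC.finite_index (conv G) X
    (fun c hc => h.alg c ((isTate_iff G).1 hc))
    (fun n j c hc hcc => h.nondeg n j c ((isTate_iff G).1 hc) fun c' hc' =>
      hcc c' ((isTate_iff G).2 hc'))
    (fun z hz => h.central z ⟨(isTate_iff G).1 hz.1, ⟨hz.2.1, hz.2.2.1⟩, fun z' hz' =>
      hz.2.2.2 z' ((isTate_iff G).2 hz')⟩)
  refine ⟨N, h1, ?_, h3, h4.trans ?_, fun hN => ?_⟩
  · unfold Pool.Agent.Helper7K9.TC.tateDim at h2
    rw [isTate_eq] at h2
    exact h2
  · exact forall_congr' fun n => forall_congr' fun j => forall_congr' fun c =>
      imp_congr (isTate_iff G) Iff.rfl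
  · have h6 := h5 hN
    rw [isTate_eq] at h6
    exact h6

end Pool.Agent.Results.MP_4776b1_ag.FiniteIndex
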