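import Mathlib
import Pool.Agent.Helper23K9.T5.Fin5

/-!
# The Tate conjecture at 5 for elliptic surfaces with a section of order five

Let `k` be a field of characteristic different from 5 (for example finitely generated over its
prime field), `k'` a separable closure, `k1` a field between them which contains a primitive fifth
root of unity `ζ` (for example `k(ζ)`), `K = k(t)`, `F = k'(t)`, and

`E = E_b : y² + (1 - b) x y - b y = x³ - b x²`,  `b = β / γ`

with polynomials `β`, `γ` over `k`. Every elliptic curve over `K` with a rational point of order five is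
of this form (the point is `(0, 0)`); the discriminant of `E` is `b⁵ (b² - 11 b - 1)`. If `b` has degree
`n` as a map of the projective line to itself, then the elliptic surface `X` with generic fibre `E` is
in general a surface of geometric genus `n - 1` with singular fibres of type `I₅` (in general `2 n`) and
`I₁` (in general `2 n`).

`TateAt 5` says that all the classes in `V₅ Sel(E / F)` which are fixed by the Galois group of `k`
come from `E(K)`; as `Br(X ⊗ k') = Ш(E / F)` up to `p`-torsion (Grothendieck), this is the Tate
conjecture for divisors at the prime 5 on `X`.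

Let `ε`, `ε'` be the two roots of `X² - 11 X - 1` in `k1` (`8 + 5 (ζ + ζ⁴)` and `8 + 5 (ζ² + ζ³)`).
`Crit5`: over `k1`, the polynomials `β`, `γ` are coprime, all irreducible factors of `β γ` and of
`(β - ε γ) (β - ε' γ)` are separable, and each of these two products has an irreducible factor whose
degree and multiplicity are prime to five. `nn5` is the number of the zeros and poles of `b` plus the
number of the zeros and poles of `(b - ε) / (b - ε')` (closed points of the projective line over `k1`).

Theorem.
(1) Suppose `Crit5`, and that there are `N` points of `E(K)` which are linearly independent in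
`E(F) / 5 E(F)` with `nn5 ≤ N + 3`. Then the Tate conjecture at 5 holds for `E`. This is so for `N = 1` and
the point `(0, 0)`: the Tate conjecture at 5 holds if `nn5 ≤ 4`.
(2) Let `x`, `y` be polynomials over `k`, `β = y² + x y - x³` and `γ = (x + 1) y - x²`, so that `(x, y)` is a
point of `E`. If `Crit5` holds, `nn5 ≤ 5`, and each of `β`, `γ` has an irreducible factor over `k1` whose
multiplicity is prime to five, then the Tate conjecture at 5 holds for `E`, and the point `(x, y)` has
infinite order.
(3) Over the rational numbers, for ALL `n > 0` prime to five: the Tate conjecture at 5 holds for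
`b = tⁿ - a` for all integers `a` such that `a` and `a² + 11 a - 1` are both divisible exactly once by
some prime different from five (for example `a = 3`; `p_g = n - 1`); and it holds for
`b = - (t²ⁿ - 6 tⁿ + 69) / (3 tⁿ + 13)`, with the point `(-4, tⁿ - 1)` of infinite order (`p_g = 2 n - 1`).
(4) Over fields of rational functions, for all `n > 0` prime to five and to the characteristic: the
conditions of (1) with `nn5 ≤ 4` hold for `b = tⁿ - s` over `κ(s)`, and the conditions of (2) hold for
`x = u`, `y = tⁿ - s` over `κ(u)(s)` (characteristic not two).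

The proof is a descent with the full group `E[5]`, which is a nonsplit extension of `ℤ / 5` by
`ℤ / 5` over `F` (generated by the point `(0, 0)` and a point `T` with coordinates in
`F(((b - ε) / (b - ε')) ^ (1 / 5))`), for the cocycles with values in the Tate module whose class is
fixed by the Galois group. The two Selmer groups of the isogenies of degree five are bounded with
explicit quadratic equations for the isogenies (the function `y / x` at the five translates of a point
and its eigenfunctions for the translation by `(0, 0)`). The points fill the first Selmer group, and the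
second one together with the coboundary of `T` and the relations between the points.
-/

namespace Pool.Agent.Results.MP_4776b1_ag.FiveTorsionSection

open Polynomial Pool.Agent.TH115.GD Pool.Agent.Helper7K9.T3 Pool.Agent.Helper23K9.T5
open scoped Classical

theorem result :
    (∀ {k k1 k' K F : Type} [Field k] [Field k1] [Field k'] [Algebra k k1] [Algebra k1 k']
      [Algebra k k'] [IsScalarTower k k1 k'] [Field K] [Algebra k[X] K] [Field F] [Algebra k'[X] F]
      [IsFractionRing k'[X] F] [Algebra K F] (_ : IsTower k k' K F) (_ : (5 : k) ≠ 0) {z : k1}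
      (_ : IsZ z),
      (∀ β γ : k[X], Crit5 z (β.map (algebraMap k k1)) (γ.map (algebraMap k k1)) →
        (∀ (N : ℕ) (Q : Fin N → Pt (crvQ K β γ) K), Indep5 F Q →
          nn5 z (β.map (algebraMap k k1)) (γ.map (algebraMap k k1)) ≤ N + 3 →
          TateAt (F := F) 5 k' (crvQ K β γ)) ∧
        (Rk0 z (β.map (algebraMap k k1)) (γ.map (algebraMap k k1)) →
          TateAt (F := F) 5 k' (crvQ K β γ))) ∧
      (∀ x y : k[X], Rk1 z (x.map (algebraMap k k1)) (y.map (algebraMap k k1)) →
        TatePt k' K F x y)) ∧
    (∀ {k' K F : Type} [Field k'] [Algebra ℚ k'] [Field K] [Algebra ℚ[X] K] [Field F]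
      [Algebra k'[X] F] [IsFractionRing k'[X] F] [Algebra K F] (_ : IsTower ℚ k' K F) (n : ℕ),
      0 < n → ¬ 5 ∣ n →
        (∀ a : ℤ, ExactP a → ExactP (a ^ 2 + 11 * a - 1) →
          TateAt (F := F) 5 k' (crvQ K (X ^ n - C (a : ℚ)) 1)) ∧
        TatePt k' K F (C (-4) : ℚ[X]) (X ^ n - C 1)) ∧
    (∀ (κ : Type) [Field κ] (n : ℕ) (w : κ), (5 : κ) ≠ 0 → IsZ w → 0 < n → ¬ 5 ∣ n → (n : κ) ≠ 0 →
      Rk0 (czeta κ w) (gam κ n) 1 ∧
        ((2 : κ) ≠ 0 → Rk1 (cu κ (algebraMap κ[X] (Ku κ) (C w))) (xr κ) (yr κ n))) := by
  have : Fact (Nat.Prime 5) := ⟨by norm_num⟩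
  refine ⟨?_, ?_, ?_⟩
  · intro k k1 k' K F _ _ _ _ _ _ _ _ _ _ _ _ _ hT h5 z hz
    refine ⟨fun β γ hC => ⟨fun N Q hQ hN => tate_crit hT h5 hz hC rfl Q hQ hN,
      fun h0 => tate_rank0 hT h5 hz hC rfl h0.2⟩, fun x y h1 => ?_⟩
    obtain ⟨h2, h3, h4, h6⟩ := h1
    rw [← bxy_map, ← gxy_map] at h2 h6
    rw [← bxy_map] at h3
    rw [← gxy_map] at h4
    exact tate_rank1 hT h5 hz h2 h3 h4 rfl h6
  · intro k' K F _ _ _ _ _ _ _ _ hT n hn hn5
    refine ⟨fun a h1 h2 => ?_, tate_tri_Q hT hn hn5⟩
    obtain ⟨p, hp, hp5, hpa, hpa2⟩ := h1
    obtain ⟨q, hq, hq5, hqa, hqa2⟩ := h2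
    exact tate_bin_Q hT hn hn5 hp hp5 hpa hpa2 hq hq5 hqa hqa2
  · intro κ _ n w h5 hw hn hn5 hnκ
    exact ⟨crit_ks κ h5 hw hn hn5 hnκ, fun h2 => crit_kus κ h2 h5 hw hn hn5 hnκ⟩

end Pool.Agent.Results.MP_4776b1_ag.FiveTorsionSection
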