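import Mathlib
import Pool.Agent.TH115.GD.Defs
import Pool.Agent.Helper23K9.Q4.Crit
import Pool.Agent.Helper23K9.Q6.Out

/-!
# The Tate conjecture at 3 for twists of elliptic surfaces by polynomials of odd degree

Let `k` be a field of characteristic different from 2 and 3 (for example finitely generated over its
prime field), `k'` a separable closure, `K = k(t)`, `F = k'(t)`, and

`E : y² + a x y + b y = x³`,

with polynomials `a`, `b` over `k`, `bad = b (a³ - 27 b) ≠ 0`. Every elliptic curve over `K` with a
rational point of order three is of this form. The finite points at which `E` has bad reduction are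
among the roots of `bad`. Let `D` be a separable polynomial of odd degree `2 g + 1` over `k`, `C` the
hyperelliptic curve `s² = D(t)` of genus `g`, and `E⁽ᴰ⁾` the quadratic twist of `E` by `D` (`twD`). Over
the projective line it defines an elliptic surface, which has in general the fibres of `E` and fibres
`I₀*` at the roots of `D` and at infinity; it is a quotient of the pullback of `E` to the curve `C`,
of positive genus for `g > 0`. The geometric genus of the surface is not bounded.

`TateD` says: the Tate conjecture at 3 holds for this surface (`TateAt 3`: all the classes in
`V₃ Sel(E⁽ᴰ⁾ / F)` which are fixed by the Galois group of `k` come from `E⁽ᴰ⁾(K)`; this is the part of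
the second cohomology which does not come from the zero section and the components of the fibres), and
multiplication by three is bijective on `E⁽ᴰ⁾(K)` (for finitely generated `k`, this means that the rank
is zero, as `E⁽ᴰ⁾(K)` is finitely generated). So `V₃ Sel(E⁽ᴰ⁾ / F)` has no nonzero classes fixed by the
Galois group of `k`.

Theorem.
(1) A criterion. Let `z` be a primitive third root of unity, and suppose that the irreducible factors
of `bad` are separable. Suppose that
  (i) for all the roots `θ` of `bad` in `k'` with `D(θ) ≠ 0` the number `D(θ)` is not a square in the
  field `k(z, θ)` (`NonSq`), and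
  (ii) the Jacobian of the curve `C` has no point of order three over `k(z)` (`NoThree`).
Then `TateD` holds.
(2) Let `k` be a number field. For a given `E` and a given integer `c ≠ 0` of `k`, `TateD` holds for
almost all members of each pencil of cubic polynomials `D = c t³ + a₂ t² + a₁ t + a₀`, with `a₀`
varying, uniformly in the pencils: for all integers `a₁`, `a₂` of `k` the proportion of the exceptions
among the integers `a₀` with coordinates in `[-H, H]` is at most `η(H)`, which does not depend on
`a₁`, `a₂` and tends to zero (`MostInPencils`). There is no condition on `E`.

The condition (ii) in terms of polynomials: in every equation `p² - D q² = κ w³` with `q ≠ 0`, such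
that the common irreducible factors of `p` and `q` divide `D`, the degree of `w` is at least `g + 1`
(the function `p + q s` on `C` has the divisor `3 (Δ - deg(Δ) ∞)` with `Δ` effective of degree
`deg w`, and every class has a unique reduced representative of degree at most `g`).

Proof. A class of order three of `E⁽ᴰ⁾` over `F` is given over `L = k'(C)` by two Kummer characters
(the second one, if the first one vanishes), on which the automorphism `s ↦ - s` acts by the sign.
They are unramified outside of the points over the roots of `bad` and over those of `D` and infinity,
and at the points over the roots of `bad` by (i): there is an automorphism of `k'` over `k(z, θ)` with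
`√D(θ) ↦ - √D(θ)`; together with `s ↦ - s` it fixes the point, but it changes the sign of the
character. As `s ↦ - s` fixes the points over the roots of `D` and infinity and changes the sign of
the character, it is also unramified there, so that it comes from a function `f` on `C` with
`div(f) = 3 Δ`, that is, from a point of order three of the Jacobian, and since the characters
are invariant under the Galois group of `k(z)`, this point is defined over `k(z)`. In the
formalisation: `f` is, modulo cubes, of the form `p + q s` with `p² - D q² = w³` and
`deg w ≤ g` (reduction of binary forms), for the smallest degree of `w` the conjugates of `p + q s` are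
constant multiples of it, and so one obtains a solution of the equation over `k(z)`. (2): for a
prime number `p ≡ 1 (mod 3)` at most `(p + 1) / 2` members of a pencil modulo `p` are of the form
`(α t + β)² + c (t - e)³`: if `a₂² ≠ 3 c a₁`, then `α ≠ 0` determines the polynomial, and `- α` gives
the same polynomial; if `a₂² = 3 c a₁`, then `D = c (t - e₀)³ + a`, and `a` is a square. Large sieve,
uniformly in families.
-/

namespace Pool.Agent.Results.MP_4776b1_ag.OddTwistsThree

open Polynomial NumberField Pool.Agent.TH115.GD Pool.Agent.Helper7K9.T3 Pool.Agent.Helper23K9.Q3
  Pool.Agent.Helper23K9.Q4 Pool.Agent.Helper23K9.Q6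

theorem result :
    (∀ {k k' K F : Type} [Field k] [Field k'] [Algebra k k'] [Field K] [Algebra k[X] K] [Field F]
      [Algebra k'[X] F] [IsFractionRing k'[X] F] [Algebra K F] (_ : IsTower k k' K F)
      (_ : (2 : k) ≠ 0) (_ : (3 : k) ≠ 0) (a b : k[X]) (_ : bad3 a b ≠ 0)
      (_ : ∀ π : k[X], Irreducible π → π ∣ bad3 a b → π.Separable) (D : k[X])
      (_ : Odd D.natDegree) (_ : D.Separable) (z : k') (_ : z ^ 2 + z + 1 = 0), NonSq a b D z →
      NoThree (D.map (algebraMap k (IntermediateField.adjoin k {z}))) → TateD k' K F a b D) ∧
    (∀ {k k' K F : Type} [Field k] [NumberField k] [Field k'] [Algebra k k'] [Field K]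
      [Algebra k[X] K] [Field F] [Algebra k'[X] F] [IsFractionRing k'[X] F] [Algebra K F]
      (_ : IsTower k k' K F) {J : Type} [Fintype J] (B : Module.Basis J ℤ (𝓞 k)) (a b : k[X])
      (_ : bad3 a b ≠ 0) (c : 𝓞 k) (_ : c ≠ 0), MostInPencils k' K F B a b c) :=
  ⟨fun hT h2 h3 _ _ hbad hsep _ hD hDs _ hz hb hno => critD hT h2 h3 hbad hsep hD hDs hz hb hno,
    fun hT _ _ B _ _ hbad _ hc => most_pencils B hT hbad hc⟩

end Pool.Agent.Results.MP_4776b1_ag.OddTwistsThree
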