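import Mathlib
import Pool.Agent.TH115.GD.Defs
import Pool.Agent.Helper7K9.T3.Stm
import Pool.Agent.Helper7K9.T3.Exi

/-!
# The Tate conjecture at 3 for elliptic surfaces of unbounded rank and unbounded genus

Let `q = p ^ ν` be a power of a prime with `q = 1` modulo `3`, and let `k` be any field of
characteristic `p` which contains the field with `q ^ 2` elements (for example finite, or finitely
generated over its prime field): there is a primitive root of unity `ω` of order `q ^ 2 - 1` in `k`.
Let `f ≠ 0` and `h` be polynomials over `k`, `3 deg f < deg h`, `deg h` prime to three, such that `h`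
and `h - ζ f ^ 3` are irreducible and separable for all `ζ` with `ζ ^ (q + 1) = 1`. Let `X` be the
elliptic surface over the projective line over `k` with the generic fibre

`E : y ^ 2 + 3 f ^ (q + 1) x y + (f ^ (3 q + 3) - h ^ (q + 1)) y = x ^ 3`

over `K = k(t)`. (`X` is the pullback of the surface `y ^ 2 + 3 x y + (1 - s ^ (q + 1)) y = x ^ 3` by
the map `s = h / f ^ 3`, a map of arbitrary degree prime to three; its geometric genus tends to
infinity with `q` or with the degree of `h`.)

Theorem. (1) The Tate conjecture for divisors at the prime 3 holds for `X`: every class in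
`V₃ Sel(E / F)` (`F = k'(t)`, `k'` a separable closure of `k`) which is fixed by the Galois group of
`k` comes from `E(K)`. (2) `E(K)` contains `q` linearly independent points, so the number of
independent Tate classes which have to be algebraic, and are, is not bounded.
(3) The conditions on `k`, `f`, `h` are satisfied for all `p`, `ν` by `f = 1` and polynomials `h` of
arbitrarily large degree over suitable finite fields, and over every field `k = κ(s)` by `f = 1`,
`h = t ^ r - s` for all primes `r ≠ 3, p`.

Method: let `q = 3 m + 1`, `b = f ^ (3 q + 3) - h ^ (q + 1)`, and for `ζ ^ (q + 1) = 1` put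
`z = ζ⁻¹ h - f ^ 3`, a divisor of `b`. By the Frobenius identity
`b = - z (z ^ q + f ^ 3 z ^ (q - 1) + f ^ (3 q))` there is a point `P_ζ` on `E` with
`x = - f z ^ (m + 1) (f ^ (3 m) + z ^ m)` and `y = z f ^ 3 (f ^ (3 m) + z ^ m) ^ 3`, which is `z` times
a cube. These points and `(0, 0)` fill the group of all pairs of divisors which the descent by the
isogeny of degree three allows for Galois-invariant classes.
-/

namespace Pool.Agent.Results.MP_4776b1_ag.TateAtThreeUnboundedRank

open Polynomial Pool.Agent.TH115.GD Pool.Agent.Helper7K9.T3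
open scoped Classical

theorem result :
    (∀ (p ν : ℕ) [Fact p.Prime], p ^ ν % 3 = 1 → 0 < ν →
      ∀ (k k' K F : Type) [Field k] [CharP k p] [Field k'] [Algebra k k'] [Field K]
        [Algebra k[X] K] [Field F] [Algebra k'[X] F] [IsFractionRing k'[X] F] [Algebra K F],
        IsTower k k' K F → ∀ ω : k, IsPrimitiveRoot ω ((p ^ ν) ^ 2 - 1) →
          ∀ f h : k[X], Admissible3 (p ^ ν) f h →
            TateAt (F := F) 3 k' (curve3 K (p ^ ν) f h) ∧
              ∃ P : Fin (p ^ ν) → Pt (curve3 K (p ^ ν) f h) K, LinearIndependent ℤ P) ∧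
    (∀ (p ν : ℕ) [Fact p.Prime], p ^ ν % 3 = 1 → 0 < ν →
      (∃ (k : Type) (_ : Field k) (_ : Finite k) (_ : CharP k p) (ω : k),
        IsPrimitiveRoot ω ((p ^ ν) ^ 2 - 1) ∧ ∀ N : ℕ, ∃ h : k[X], N ≤ h.natDegree ∧
          Admissible3 (p ^ ν) 1 h) ∧
      ∀ (κ k : Type) [Field κ] [CharP κ p] [Field k] [Algebra κ[X] k] [IsFractionRing κ[X] k]
        (r : ℕ), r.Prime → r ≠ 3 → r ≠ p →
          Admissible3 (p ^ ν) 1 (X ^ r - C (algebraMap κ[X] k X))) := by
  refine ⟨fun p ν _ hm hν k k' K F _ _ _ _ _ _ _ _ _ _ hT ω hω f h A =>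
    unbounded hT p ν hν hm hω f h A, fun p ν _ hm hν => ⟨exist3 hν, ?_⟩⟩
  intro κ k _ _ _ _ _ r hr h3 hrp
  exact exist_inf3 _ hr h3 hrp

end Pool.Agent.Results.MP_4776b1_ag.TateAtThreeUnboundedRank
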